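import Mathlib

set_option autoImplicit false
open Set Filter Topology Metric Real InnerProductSpace

namespace Pool.Agent.H.MP_f2ff95_an

noncomputable def Y (ζ : ℂ) : ℝ := √((‖ζ‖ + ζ.re) / 2)

@[fun_prop] lemma Yc : Continuous Y := by unfold Y; fun_prop

lemma Y0 (ζ : ℂ) : 0 ≤ Y ζ := sqrt_nonneg _

lemma Ysq (ζ : ℂ) : Y ζ ^ 2 = (‖ζ‖ + ζ.re) / 2 :=
  sq_sqrt (by linarith [Complex.abs_re_le_norm ζ, neg_abs_le ζ.re])

lemma Ypos {ζ : ℂ} (h : ζ ∈ Complex.slitPlane) : 0 < Y ζ := by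
  refine sqrt_pos.2 ?_
  rcases h with h | h
  · positivity
  · linarith [Complex.abs_re_lt_norm.2 h, neg_abs_le ζ.re]

lemma Yneg {t : ℝ} (h : t ≤ 0) : Y t = 0 := by simp [Y, abs_of_nonpos h]

lemma Yre {t : ℝ} (h : 0 ≤ t) : Y t = √t := by simp [Y, abs_of_nonneg h]

lemma nsq (ζ : ℂ) : ‖ζ ^ (2⁻¹ : ℂ)‖ ^ 2 = ‖ζ‖ := by rw [← norm_pow, Complex.cpow_ofNat_inv_pow]

lemma argq {s : ℂ} (h : ‖s‖ < 1) : (1 + Complex.I * s) / (1 - Complex.I * s) ∈ Complex.slitPlane ∧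
    1 - Complex.I * s ≠ 0 ∧ (Complex.log ((1 + Complex.I * s) / (1 - Complex.I * s))).im =
      arctan (2 * s.re / (1 - ‖s‖ ^ 2)) := by
  have n : 1 - Complex.I * s ≠ 0 := fun k => by
    have := congrArg norm (sub_eq_zero.1 k)
    simp at this; linarith
  have p := Complex.normSq_pos.2 n
  have e : ‖s‖ ^ 2 = s.re * s.re + s.im * s.im := by rw [Complex.sq_norm, Complex.normSq_apply]
  have a : 0 < 1 - ‖s‖ ^ 2 := by nlinarith [norm_nonneg s]
  have r : ((1 + Complex.I * s) / (1 - Complex.I * s)).re =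
      (1 - ‖s‖ ^ 2) / Complex.normSq (1 - Complex.I * s) := by
    rw [Complex.div_re, e]; simp; ring
  have i : ((1 + Complex.I * s) / (1 - Complex.I * s)).im =
      2 * s.re / Complex.normSq (1 - Complex.I * s) := by
    rw [Complex.div_im]; simp; ring
  have r0 : 0 < ((1 + Complex.I * s) / (1 - Complex.I * s)).re := by rw [r]; positivity
  refine ⟨Or.inl r0, n, ?_⟩
  have := abs_lt.1 (Complex.abs_arg_lt_pi_div_two_iff.2 (Or.inl r0))
  rw [Complex.log_im, ← arctan_tan this.1 this.2, Complex.tan_arg, r, i]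
  congr 1; field_simp

noncomputable def ψ (a : ℝ) (z : ℂ) : ℂ := (a - z) / (1 - a * z)

noncomputable def uE (a : ℝ) (z : ℂ) : ℝ := -1 + 2 / π * arctan (2 * Y (ψ a z) / (1 - ‖ψ a z‖))

variable {a : ℝ} (a0 : 0 < a) (a1 : a < 1)
include a0 a1

lemma den {z : ℂ} (h : ‖z‖ ≤ 1) : 1 - a * z ≠ 0 := fun k => by
  have := congrArg norm (sub_eq_zero.1 k)
  simp [abs_of_pos a0] at this
  nlinarith [norm_nonneg z]

omit a0 a1 in
lemma idn (z : ℂ) : ‖1 - a * z‖ ^ 2 - ‖a - z‖ ^ 2 = (1 - a ^ 2) * (1 - ‖z‖ ^ 2) := by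
  simp only [Complex.sq_norm, Complex.normSq_apply]; simp; ring

lemma ψlt {z : ℂ} (h : ‖z‖ < 1) : ‖ψ a z‖ < 1 := by
  rw [ψ, norm_div, div_lt_one (norm_pos_iff.2 (den a0 a1 h.le))]
  refine lt_of_pow_lt_pow_left₀ 2 (norm_nonneg _) ?_
  have := mul_pos (show 0 < 1 - a ^ 2 by nlinarith) (show 0 < 1 - ‖z‖ ^ 2 by nlinarith [norm_nonneg z])
  linarith [idn (a := a) z]

lemma ψeq {z : ℂ} (h : ‖z‖ = 1) : ‖ψ a z‖ = 1 := by
  rw [ψ, norm_div, div_eq_one_iff_eq (norm_ne_zero_iff.2 (den a0 a1 h.le))]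
  refine (pow_left_inj₀ (norm_nonneg _) (norm_nonneg _) two_ne_zero).1 ?_
  have := idn (a := a) z
  rw [h] at this; linarith

lemma ψan {z : ℂ} (h : ‖z‖ ≤ 1) : AnalyticAt ℂ (ψ a) z := by
  unfold ψ; fun_prop (disch := exact den a0 a1 h)

lemma slit {z : ℂ} (h : ‖z‖ ≤ 1) (hz : z ∉ (↑) '' Icc a 1) : ψ a z ∈ Complex.slitPlane := by
  by_contra c
  rw [Complex.mem_slitPlane_iff, not_or, not_lt, not_not] at c
  have e : ψ a z = (ψ a z).re := Complex.ext (by simp) (by simp [c.2])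
  generalize (ψ a z).re = t at c e
  rw [ψ, div_eq_iff (den a0 a1 h)] at e
  have p : 0 < 1 - t * a := by nlinarith
  have : z = ((a - t) / (1 - t * a) : ℝ) := by
    have : (1 - t * a : ℂ) ≠ 0 := by exact_mod_cast p.ne'
    push_cast
    rw [eq_div_iff this]; linear_combination -e
  refine hz ⟨_, ⟨?_, ?_⟩, this.symm⟩
  · rw [le_div_iff₀ p]; nlinarith [mul_nonneg (neg_nonneg.2 c.1) (show 0 ≤ 1 - a ^ 2 by nlinarith)]
  · rw [this, Complex.norm_real] at h; exact (le_abs_self _).trans h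

omit a0 a1 in
lemma ψre (x : ℝ) : ψ a x = ((a - x) / (1 - a * x) : ℝ) := by simp [ψ]

lemma uEc {z : ℂ} (h : ‖z‖ < 1) : ContinuousAt (uE a) z := by
  have := (ψan a0 a1 h.le).continuousAt
  have := (sub_pos.2 (ψlt a0 a1 h)).ne'
  unfold uE; fun_prop (disch := assumption)

lemma uEs {x : ℝ} (h : x ∈ Icc a 1) : uE a x = -1 := by
  rw [uE, ψre, Yneg (div_nonpos_of_nonpos_of_nonneg (by linarith [h.1]) (by nlinarith [h.2]))]
  simp

omit a0 a1 in
lemma uEb (z : ℂ) : |uE a z| ≤ 2 := by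
  have p := pi_pos
  have h1 := mul_le_mul_of_nonneg_left (arctan_lt_pi_div_two (2 * Y (ψ a z) / (1 - ‖ψ a z‖))).le
    (show 0 ≤ 2 / π by positivity)
  have h2 := mul_le_mul_of_nonneg_left (neg_pi_div_two_lt_arctan (2 * Y (ψ a z) / (1 - ‖ψ a z‖))).le
    (show 0 ≤ 2 / π by positivity)
  rw [mul_neg] at h2
  rw [show 2 / π * (π / 2) = 1 by field_simp] at h1 h2
  rw [uE, abs_le]; constructor <;> linarith

omit a0 a1 in
lemma cF : IsClosed ((↑) '' Icc a 1 : Set ℂ) := (isCompact_Icc.image Complex.continuous_ofReal).isClosed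

lemma uEh {z : ℂ} (h : z ∈ ball (0 : ℂ) 1 \ (↑) '' Icc a 1) : HarmonicAt (uE a) z := by
  have z1 : ‖z‖ < 1 := by simpa using h.1
  have b (z : ℂ) (h : ‖z‖ < 1) : ‖ψ a z ^ (2⁻¹ : ℂ)‖ < 1 :=
    lt_of_pow_lt_pow_left₀ 2 zero_le_one (by rw [nsq, one_pow]; exact ψlt a0 a1 h)
  have s : AnalyticAt ℂ (fun z => ψ a z ^ (2⁻¹ : ℂ)) z :=
    (ψan a0 a1 z1.le).cpow analyticAt_const (slit a0 a1 z1.le h.2)
  have q := argq (b z z1)
  have l : AnalyticAt ℂ (fun z => Complex.log ((1 + Complex.I * ψ a z ^ (2⁻¹ : ℂ)) /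
      (1 - Complex.I * ψ a z ^ (2⁻¹ : ℂ)))) z :=
    AnalyticAt.clog (by fun_prop (disch := exact q.2.1)) q.1
  refine (harmonicAt_congr_nhds ?_).1 ((harmonicAt_const (-1)).add (l.harmonicAt_im.const_smul (c := 2 / π)))
  filter_upwards [isOpen_ball.mem_nhds h.1] with w hw
  simp only [Pi.add_apply, Pi.smul_apply, smul_eq_mul]
  rw [(argq (b w (by simpa using hw))).2.2, nsq, Complex.cpow_inv_two_re, uE, Y]

lemma uEl {ζ : ℂ} (h : ‖ζ‖ = 1) (hz : ζ ∉ (↑) '' Icc a 1) :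
    Tendsto (uE a) (𝓝[ball (0 : ℂ) 1 \ (↑) '' Icc a 1] ζ) (𝓝 0) := by
  have c : ContinuousAt (fun z => -(2 / π) * arctan ((1 - ‖ψ a z‖) / (2 * Y (ψ a z)))) ζ := by
    have := (ψan a0 a1 h.le).continuousAt
    have := (mul_pos two_pos (Ypos (slit a0 a1 h.le hz))).ne'
    fun_prop (disch := assumption)
  have := c.tendsto.mono_left (nhdsWithin_le_nhds (s := ball (0 : ℂ) 1 \ (↑) '' Icc a 1))
  simp only [ψeq a0 a1 h, sub_self, zero_div, arctan_zero, mul_zero] at this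
  refine this.congr' (eventually_mem_nhdsWithin.mono fun w hw => ?_)
  have w1 : ‖w‖ < 1 := by simpa using hw.1
  have p := pi_pos
  rw [← inv_div _ (1 - _), arctan_inv_of_pos (div_pos (mul_pos two_pos (Ypos (slit a0 a1 w1.le hw.2)))
    (sub_pos.2 (ψlt a0 a1 w1))), uE]
  field_simp; ring

lemma uEx {x : ℝ} (h : x ≤ a) : uE a x = -1 + 2 / π *
    arctan (2 * √((a - x) / (1 - a * x)) / (1 - (a - x) / (1 - a * x))) := by
  have : 0 ≤ (a - x) / (1 - a * x) := div_nonneg (by linarith) (by nlinarith)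
  rw [uE, ψre, Yre this, Complex.norm_real, norm_of_nonneg this]

end Pool.Agent.H.MP_f2ff95_an
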