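import Pool.Agent.H.MP_f2ff95_an.A

set_option autoImplicit false
open Set Filter Topology Metric Real InnerProductSpace MeasureTheory

namespace Pool.Agent.H.MP_f2ff95_an

lemma sub {U : ℂ → ℝ} (hc : Continuous U) (h0 : ∀ z, 0 ≤ U z) (h1 : ∀ z ∈ ball (0 : ℂ) 1, U z ≤ 1)
    (hh : ∀ z, 0 < U z → HarmonicAt U z) {z : ℂ} (hz : z ∈ ball (0 : ℂ) 1) :
    ∃ ε : ℝ, 0 < ε ∧ ∀ ρ : ℝ, 0 < ρ → ρ < ε → ((U z - 1 : ℝ) : EReal) ≤
      -((((ENNReal.ofReal (2 * π))⁻¹ * ∫⁻ θ in Ioc 0 (2 * π),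
        (-((U (z + (ρ : ℂ) * Complex.exp ((θ : ℝ) * Complex.I)) - 1 : ℝ) : EReal)).toENNReal) : ENNReal) :
          EReal) := by
  have : ∀ᶠ w in 𝓝 z, w ∈ ball (0 : ℂ) 1 ∧ (0 < U z → 0 < U w) := by
    refine (isOpen_ball.eventually_mem hz).and ?_
    by_cases k : 0 < U z
    · exact (hc.continuousAt.eventually (lt_mem_nhds k)).mono fun _ h _ => h
    · simp [k]
  obtain ⟨ε, e0, hε⟩ := Metric.eventually_nhds_iff.1 this
  refine ⟨ε, e0, fun ρ r0 r1 => ?_⟩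
  have p := pi_pos
  have i : IntervalIntegrable (fun θ => U (circleMap z ρ θ)) volume 0 (2 * π) :=
    Continuous.intervalIntegrable (by fun_prop) _ _
  have av : U z ≤ circleAverage U z ρ := by
    rcases (h0 z).eq_or_lt with k | k
    · rw [← k]; exact circleAverage_nonneg_of_nonneg fun w _ => h0 w
    · refine (HarmonicOnNhd.circleAverage_eq fun w hw => hh w ((hε ?_).2 k)).ge
      rw [abs_of_pos r0] at hw
      exact lt_of_le_of_lt hw r1
  have nn (θ : ℝ) : 0 ≤ 1 - U (circleMap z ρ θ) :=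
    sub_nonneg.2 (h1 _ (hε (by rw [circleMap_mem_sphere z r0.le θ]; exact r1)).1)
  have e : ∫⁻ θ in Ioc 0 (2 * π),
      (-((U (z + (ρ : ℂ) * Complex.exp ((θ : ℝ) * Complex.I)) - 1 : ℝ) : EReal)).toENNReal =
      ENNReal.ofReal (∫ θ in (0 : ℝ)..2 * π, (1 - U (circleMap z ρ θ))) := by
    rw [intervalIntegral.integral_of_le (by positivity), ofReal_integral_eq_lintegral_ofReal
      (intervalIntegrable_const.sub i).1 (Eventually.of_forall nn)]
    congr 1; ext θ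
    rw [← EReal.coe_neg, EReal.real_coe_toENNReal, neg_sub, circleMap]
  have n2 : 0 ≤ ∫ θ in (0 : ℝ)..2 * π, (1 - U (circleMap z ρ θ)) :=
    intervalIntegral.integral_nonneg (by positivity) fun θ _ => nn θ
  rw [e, ← ENNReal.ofReal_inv_of_pos (by positivity), ← ENNReal.ofReal_mul (by positivity),
    EReal.coe_ennreal_ofReal, max_eq_left (by positivity), ← EReal.coe_neg, EReal.coe_le_coe_iff,
    intervalIntegral.integral_sub intervalIntegrable_const i, intervalIntegral.integral_const]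
  rw [circleAverage, smul_eq_mul] at av
  rw [sub_zero, smul_eq_mul, mul_one, mul_sub, inv_mul_cancel₀ (by positivity)]
  linarith

noncomputable def G (κ : ℝ) (ζ : ℂ) : ℝ := exp (Y ζ / κ) * (‖ζ - 1‖ / (‖ζ‖ + 2 * Y ζ + 1))

lemma Qp (ζ : ℂ) : 0 < ‖ζ‖ + 2 * Y ζ + 1 := by have := Y0 ζ; positivity

lemma Gc (κ : ℝ) : Continuous (G κ) := by
  unfold G; fun_prop (disch := exact fun ζ => (Qp ζ).ne')

lemma G0 (κ : ℝ) (ζ : ℂ) : 0 ≤ G κ ζ := by have := Qp ζ; unfold G; positivity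

noncomputable def U (κ b : ℝ) (z : ℂ) : ℝ := κ / 2 * log⁺ (G κ (b - z))

lemma Uc (κ b : ℝ) : Continuous (U κ b) := by have := Gc κ; unfold U; fun_prop

lemma YA (ζ : ℂ) : Y ζ ^ 2 ≤ ‖ζ‖ := by rw [Ysq]; linarith [Complex.re_le_norm ζ]

lemma U1 {κ b : ℝ} (k : 0 < κ) (b0 : 0 < b) (b1 : b < 1) {z : ℂ} (h : z ∈ ball (0 : ℂ) 1) : U κ b z ≤ 1 := by
  have z1 : ‖z‖ < 1 := by simpa using h
  have a : ‖(b : ℂ) - z‖ ≤ 2 := (norm_sub_le _ _).trans (by simp [abs_of_pos b0]; linarith)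
  have y0 := Y0 (b - z)
  have y2 : Y (b - z) ≤ 2 := by nlinarith [YA (b - z)]
  have : G κ (b - z) ≤ exp (Y (b - z) / κ) := by
    refine mul_le_of_le_one_right (exp_pos _).le ((div_le_one (Qp _)).2 ?_)
    have := norm_sub_le (b - z : ℂ) 1
    rw [norm_one] at this; linarith
  have := posLog_le_posLog (G0 _ _) this
  rw [posLog_eq_log (x := exp _) (by rw [abs_of_pos (exp_pos _)]; exact one_le_exp (by positivity)),
    log_exp] at this
  refine (mul_le_mul_of_nonneg_left this (by positivity)).trans ?_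
  field_simp; linarith

lemma Gn (κ : ℝ) (ζ : ℂ) : G κ ζ =
    ‖Complex.exp (ζ ^ (2⁻¹ : ℂ) / κ) * ((ζ - 1) / (ζ ^ (2⁻¹ : ℂ) + 1) ^ 2)‖ := by
  rw [norm_mul, Complex.norm_exp, Complex.div_ofReal_re, norm_div, norm_pow, G, Y, ← Complex.cpow_inv_two_re]
  congr 2
  rw [← nsq ζ]
  simp only [Complex.sq_norm, Complex.normSq_apply]; simp; ring

lemma Uh {κ b : ℝ} (z : ℂ) (h : 0 < U κ b z) : HarmonicAt (U κ b) z := by
  have g1 : 1 < G κ (b - z) := by
    by_contra c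
    rw [U, posLog_eq_zero_iff _ |>.2 (by rw [abs_of_nonneg (G0 _ _)]; linarith), mul_zero] at h
    exact lt_irrefl _ h
  have s : (b : ℂ) - z ∈ Complex.slitPlane := by
    by_contra c
    rw [Complex.mem_slitPlane_iff, not_or, not_lt, not_not] at c
    have e : (b : ℂ) - z = ((b : ℂ) - z).re := Complex.ext (by simp) (by rw [c.2]; simp)
    generalize ((b : ℂ) - z).re = t at c e
    rw [e, G, Yneg c.1, ← Complex.ofReal_one, ← Complex.ofReal_sub, Complex.norm_real, Complex.norm_real,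
      norm_of_nonpos c.1, norm_of_nonpos (by linarith [c.1]), zero_div, exp_zero, one_mul,
      lt_div_iff₀ (by linarith [c.1])] at g1
    linarith
  have sa : AnalyticAt ℂ (fun z : ℂ => ((b : ℂ) - z) ^ (2⁻¹ : ℂ)) z :=
    AnalyticAt.cpow (by fun_prop) analyticAt_const s
  have n : (((b : ℂ) - z) ^ (2⁻¹ : ℂ) + 1) ^ 2 ≠ 0 := fun k => by
    rw [Gn, k] at g1; norm_num at g1
  have l : AnalyticAt ℂ (fun z : ℂ => Complex.exp ((b - z) ^ (2⁻¹ : ℂ) / κ) *
      ((b - z - 1) / ((b - z) ^ (2⁻¹ : ℂ) + 1) ^ 2)) z :=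
    sa.div_const.cexp'.mul (by fun_prop (disch := exact n))
  refine (harmonicAt_congr_nhds ?_).1 ((l.harmonicAt_log_norm
    (norm_pos_iff.1 (by rw [← Gn]; linarith))).const_smul (c := κ / 2))
  filter_upwards [((Gc κ).comp (continuous_const.sub continuous_id)).continuousAt.eventually
    (lt_mem_nhds g1)] with w hw
  simp only [Pi.smul_apply, smul_eq_mul]
  rw [← Gn, U, posLog_eq_log (x := G κ (b - w)) ((le_of_lt hw).trans (le_abs_self _))]

lemma dsq (ζ : ℂ) : ‖ζ - 1‖ ^ 2 = (‖ζ‖ + 1 - 2 * Y ζ) * (‖ζ‖ + 2 * Y ζ + 1) := by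
  have : ‖ζ - 1‖ ^ 2 = ‖ζ‖ ^ 2 - 2 * ζ.re + 1 := by
    simp only [Complex.sq_norm, Complex.normSq_apply]; simp; ring
  rw [this]; linear_combination 4 * Ysq ζ

noncomputable def ε : ℝ := exp (-500)
noncomputable def κ : ℝ := (1 + ε ^ 2) / log ((4 - 3 * ε ^ 2) / ε ^ 2)

lemma ε0 : 0 < ε := exp_pos _

lemma ε1 : ε ≤ 1 / 10 ^ 7 := by
  have := pow_div_factorial_le_exp 500 (by norm_num) 3
  rw [ε, exp_neg, one_div]
  exact inv_anti₀ (by norm_num) (le_trans (by norm_num [Nat.factorial]) this)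

lemma lε : 1000 ≤ log ((4 - 3 * ε ^ 2) / ε ^ 2) ∧ log ((4 - 3 * ε ^ 2) / ε ^ 2) ≤ 1003 := by
  have := ε0
  have := ε1
  have a : 1 ≤ 4 - 3 * ε ^ 2 := by nlinarith
  rw [log_div (by linarith) (by positivity), log_pow, show log ε = -500 from log_exp _]
  have := log_nonneg a
  have := log_le_sub_one_of_pos (zero_lt_one.trans_le a)
  constructor <;> push_cast <;> nlinarith

lemma κb : 1 / 1003 ≤ κ ∧ κ ≤ 1 / 500 := by
  have := ε0
  have := ε1
  obtain ⟨a, b⟩ := lε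
  rw [κ, le_div_iff₀ (by linarith), div_le_iff₀ (by linarith)]
  constructor <;> nlinarith

lemma Gz {t : ℝ} (h : |t - 1| ≤ ε ^ 2) : G κ t ≤ 1 := by
  have e0 := ε0
  have e1 := ε1
  obtain ⟨a, b⟩ := abs_le.1 h
  have t0 : 0 ≤ t := by nlinarith
  have s1 : √t ≤ 1 + ε ^ 2 := sqrt_le_iff.2 ⟨by positivity, by nlinarith⟩
  have s2 : 1 - ε ^ 2 ≤ √t := le_sqrt_of_sq_le (by nlinarith [show ε ^ 2 ≤ 1 by nlinarith])
  have p : 0 < 4 - 3 * ε ^ 2 := by nlinarith
  rw [G, Yre t0, ← Complex.ofReal_one, ← Complex.ofReal_sub, Complex.norm_real, Complex.norm_real,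
    norm_of_nonneg t0, norm_eq_abs]
  have k := κb.1
  refine (mul_le_mul (exp_le_exp.2 (show _ ≤ (1 + ε ^ 2) / κ by gcongr))
    (div_le_div₀ (by positivity) h p (by linarith)) (by positivity) (by positivity)).trans_eq ?_
  rw [κ, div_div_cancel₀ (by positivity), exp_log (by positivity)]
  field_simp

lemma Glow {ζ : ℂ} (hA : ‖ζ‖ ≤ 2) (hr : 81 / 40 * ε ^ 2 ≤ ζ.re) (hd : 41 / 40 * ε ^ 2 ≤ ‖ζ - 1‖) :
    7 / 10 * ε ≤ κ * log (G κ ζ) := by
  have e0 := ε0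
  have e1 := ε1
  obtain ⟨k0, k1⟩ := κb
  have d0 : 0 < ‖ζ - 1‖ := lt_of_lt_of_le (by positivity) hd
  have Q := Qp ζ
  have e : κ * log (G κ ζ) = Y ζ - κ * log ((‖ζ‖ + 2 * Y ζ + 1) / ‖ζ - 1‖) := by
    rw [G, log_mul (exp_pos _).ne' (by positivity), log_exp, ← inv_div _ ‖ζ - 1‖, log_inv]
    field_simp; ring
  have y0 := Y0 ζ
  have ya := YA ζ
  have ds := dsq ζ
  have yl : 7 / 5 * ε ≤ Y ζ := by
    refine le_of_sq_le_sq ?_ y0
    rw [Ysq]; nlinarith [Complex.re_le_norm ζ]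
  have up : ‖ζ‖ ≤ 1 + ‖ζ - 1‖ := by simpa using norm_add_le 1 (ζ - 1)
  rw [e]
  generalize Y ζ = y at *
  generalize ‖ζ - 1‖ = d at *
  generalize ‖ζ‖ = A at *
  have m0 : (1 - y) ^ 2 ≤ A + 1 - 2 * y := by nlinarith
  have m1 := (sq_nonneg _).trans m0
  rcases le_total y (1 / 2) with c | c
  · have m : 1 / 4 ≤ A + 1 - 2 * y := by nlinarith
    have : A + 1 - 2 * y ≤ d := le_of_sq_le_sq (by nlinarith) d0.le
    have : (A + 2 * y + 1) / d ≤ 1 + 16 * y := by rw [div_le_iff₀ d0]; nlinarith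
    have := (log_le_sub_one_of_pos (by positivity)).trans (sub_le_sub_right this 1)
    nlinarith
  rcases le_total d (2 / 10 ^ 6) with c' | c'
  · have : (1 - y) ^ 2 ≤ d ^ 2 := by nlinarith
    have y1 := abs_le_of_sq_le_sq' this d0.le
    have p : 0 < 4 - 3 * ε ^ 2 := by nlinarith
    have : (A + 2 * y + 1) / d ≤ (4 - 3 * ε ^ 2) / ε ^ 2 * (49 / 50) := by
      rw [div_le_iff₀ d0]
      refine le_trans ?_ (mul_le_mul_of_nonneg_left hd (by positivity))
      field_simp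
      nlinarith
    have := log_le_log (by positivity) this
    rw [log_mul (by positivity) (by norm_num)] at this
    have l := log_le_sub_one_of_pos (show (0 : ℝ) < 49 / 50 by norm_num)
    have k : κ * log ((4 - 3 * ε ^ 2) / ε ^ 2) = 1 + ε ^ 2 :=
      div_mul_cancel₀ _ (by linarith [lε.1])
    nlinarith
  · have : (A + 2 * y + 1) / d ≤ 50 ^ 4 := by rw [div_le_iff₀ d0]; nlinarith
    have := log_le_log (by positivity) this
    rw [log_pow] at this
    have l := log_le_sub_one_of_pos (show (0 : ℝ) < 50 by norm_num)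
    push_cast at this
    nlinarith

end Pool.Agent.H.MP_f2ff95_an
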